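import Pool.Agent.Helper85.DQ.Dir

/-!
Derivatives of high order of a function with the symmetry `F (-conj z) = conj (F z)`: no zeros off the
imaginary axis, and simple zeros on it.
-/

set_option autoImplicit false
set_option maxHeartbeats 1000000

open Complex Filter Topology Set MeasureTheory
open Pool.Agent.Helper85.LG (RI_coef)

namespace Pool.Agent.Helper68.PD

open Pool.Agent.Helper85.DQ

/-- the decomposition, for a function with one symmetry -/
theorem decomp1 {F : ℂ → ℂ} (hF : Differentiable ℂ F)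
    (hs : ∀ z, F (-(starRingEnd ℂ) z) = (starRingEnd ℂ) (F z)) {h r : ℝ} (hh : 0 < h)
    (hr : 0 < r) (n : ℕ) (w : ℂ) :
    2 * Real.pi * I * (iteratedDeriv n F w / (n.factorial : ℂ)) =
      AA (gk F (n + 1) w) h r -
        (-1) ^ n * (starRingEnd ℂ) (AA (gk F (n + 1) (-(starRingEnd ℂ) w)) h r) := by
  have h1 := RI_coef (a := -r) (b := r) (c := -h) (d := h) (by linarith) hr (by linarith) hh n
    (f := fun s => F (w + s)) (by fun_prop)
  have e0 : iteratedDeriv n (fun s => F (w + s)) 0 = iteratedDeriv n F w := by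
    have := iteratedDeriv_comp_const_add n F w
    have h2 := congrFun this 0
    simpa using h2
  rw [e0] at h1
  rw [← h1]
  set w' : ℂ := -(starRingEnd ℂ) w with hw'
  have hc := gk_cont hF.continuous (n + 1) w
  obtain ⟨c1, c2⟩ := cont_h hc hh
  have hg : ∀ z : ℂ, gk F (n + 1) w (-(starRingEnd ℂ) z) =
      (-1) ^ (n + 1) * (starRingEnd ℂ) (gk F (n + 1) w' z) := by
    intro z
    unfold gk
    have : F (w + -(starRingEnd ℂ) z) = (starRingEnd ℂ) (F (w' + z)) := by
      rw [← hs]
      congr 1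
      rw [hw', map_add, map_neg, Complex.conj_conj]
      ring
    rw [this, neg_pow, map_div₀, map_pow]
    have h3 : ((-1 : ℂ) ^ (n + 1)) * ((-1 : ℂ) ^ (n + 1)) = 1 := by
      rw [← mul_pow]; norm_num
    have h4 : ((-1 : ℂ) ^ (n + 1)) ≠ 0 := pow_ne_zero _ (by norm_num)
    rw [mul_comm ((-1 : ℂ) ^ (n + 1)) ((starRingEnd ℂ) z ^ (n + 1)), ← div_div, div_eq_iff h4]
    linear_combination -((starRingEnd ℂ) (F (w' + z)) / (starRingEnd ℂ) z ^ (n + 1)) * h3
  have hI0 : ∀ G : ℝ → ℂ, ∫ x in (-r)..0, G x = ∫ x in (0 : ℝ)..r, G (-x) := by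
    intro G
    have := intervalIntegral.integral_comp_neg (a := 0) (b := r) G
    rw [neg_zero] at this
    exact this.symm
  have e1 : ∫ x in (-r)..r, gk F (n + 1) w (x - h * I) =
      (-1) ^ (n + 1) * (starRingEnd ℂ) (∫ x in (0 : ℝ)..r, gk F (n + 1) w' (x - h * I)) +
        ∫ x in (0 : ℝ)..r, gk F (n + 1) w (x - h * I) := by
    rw [← intervalIntegral.integral_add_adjacent_intervals (b := 0) (c1.intervalIntegrable _ _)
      (c1.intervalIntegrable _ _), hI0, int_conj, ← intervalIntegral.integral_const_mul]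
    congr 1
    refine intervalIntegral.integral_congr fun x _ => ?_
    rw [← hg]
    congr 1
    simp only [map_sub, map_mul, conj_ofReal, conj_I]
    push_cast
    ring
  have e2 : ∫ x in (-r)..r, gk F (n + 1) w (x + h * I) =
      (-1) ^ (n + 1) * (starRingEnd ℂ) (∫ x in (0 : ℝ)..r, gk F (n + 1) w' (x + h * I)) +
        ∫ x in (0 : ℝ)..r, gk F (n + 1) w (x + h * I) := by
    rw [← intervalIntegral.integral_add_adjacent_intervals (b := 0) (c2.intervalIntegrable _ _)
      (c2.intervalIntegrable _ _), hI0, int_conj, ← intervalIntegral.integral_const_mul]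
    congr 1
    refine intervalIntegral.integral_congr fun x _ => ?_
    rw [← hg]
    congr 1
    simp only [map_add, map_mul, conj_ofReal, conj_I]
    push_cast
    ring
  have e3 : ∫ v in (-h)..h, gk F (n + 1) w (((-r : ℝ) : ℂ) + v * I) =
      (-1) ^ (n + 1) * (starRingEnd ℂ) (∫ v in (-h)..h, gk F (n + 1) w' (r + v * I)) := by
    rw [int_conj, ← intervalIntegral.integral_const_mul]
    refine intervalIntegral.integral_congr fun v _ => ?_
    rw [← hg]
    congr 1
    simp only [map_add, map_mul, conj_ofReal, conj_I]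
    push_cast
    ring
  have e4 : H370.RI (-r) r (-h) h (fun s => F (w + s) / s ^ (n + 1)) =
      (∫ x in (-r)..r, gk F (n + 1) w (x - h * I)) - (∫ x in (-r)..r, gk F (n + 1) w (x + h * I)) +
        I * (∫ v in (-h)..h, gk F (n + 1) w (r + v * I)) -
        I * ∫ v in (-h)..h, gk F (n + 1) w (((-r : ℝ) : ℂ) + v * I) := by
    unfold H370.RI gk
    simp only [H370.mk_eq]
    have e5 : ∀ x : ℝ, ((x : ℂ) + ((-h : ℝ) : ℂ) * I) = x - h * I := fun x => by push_cast; ring
    simp only [e5]
  rw [e4, e1, e2, e3]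
  unfold AA
  rw [pow_succ, map_sub, map_add, map_mul, conj_I]
  ring

theorem dir_sym {F : ℂ → ℂ} (hF : Differentiable ℂ F)
    (hs : ∀ z, F (-(starRingEnd ℂ) z) = (starRingEnd ℂ) (F z)) {h L t ρ y0 d M : ℝ} {n : ℕ} (hh : 0 < h)
    (hL : 0 < L) (hd : 0 < d) (hu : 0 < ρ - y0 - d) (hM : 0 ≤ M)
    (H : ∀ w : ℂ, w.im = t → -(ρ - y0 - d) ≤ w.re → w.re ≤ M →
        ∃ r > 0, PC F (n + 1) h L w r ∧
          (ρ - y0 - d ≤ w.re → ∀ w' : ℂ, w'.im = t → w'.re = -w.re →
            ∃ r' > 0, NN (gk F (n + 1) w') h r' ≤ Real.exp (-(d * L)) * ‖AA (gk F (n + 1) w) h r‖))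
    {w : ℂ} (hw : w.im = t) (hwM : |w.re| ≤ M) (hz : iteratedDeriv n F w = 0) :
    w.re = 0 ∧ iteratedDeriv (n + 1) F w ≠ 0 := by
  set κ := n + 1 with hκ
  set a : ℂ → ℂ := fun w => AA (gk F κ w) h 1 with ha
  set a' : ℂ → ℂ := fun w => AA (gk (deriv F) κ w) h 1 with ha'
  have hdF : Differentiable ℂ (deriv F) := by
    intro z
    exact ((hF.analyticAt z).deriv).differentiableAt
  have haa : ∀ w, HasDerivAt a (a' w) w := fun w => AA_deriv hF κ hh one_pos w
  have hfact : (n.factorial : ℂ) ≠ 0 := by exact_mod_cast n.factorial_ne_zero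
  have hpi : (2 * Real.pi * I : ℂ) ≠ 0 := by
    simp [Real.pi_ne_zero]
  have hdec : ∀ w, iteratedDeriv n F w = (n.factorial / (2 * Real.pi * I)) *
      (a w - (-1) ^ n * (starRingEnd ℂ) (a (-(starRingEnd ℂ) w))) := by
    intro w
    have := decomp1 hF hs hh one_pos n w
    simp only [ha, hκ]
    rw [← this]
    field_simp
  have hdec' : ∀ w, iteratedDeriv (n + 1) F w =
      (n.factorial / (2 * Real.pi * I)) *
        (a' w + (-1) ^ n * (starRingEnd ℂ) (a' (-(starRingEnd ℂ) w))) := by
    intro w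
    rw [iteratedDeriv_succ]
    have h1 : iteratedDeriv n F = fun w => (n.factorial / (2 * Real.pi * I)) *
        (a w - (-1) ^ n * (starRingEnd ℂ) (a (-(starRingEnd ℂ) w))) := by
      funext w; exact hdec w
    rw [h1]
    have h2 : HasDerivAt (fun w => (starRingEnd ℂ) (a (-(starRingEnd ℂ) w)))
        (-(starRingEnd ℂ) (a' (-(starRingEnd ℂ) w))) w := by
      have h3 : HasDerivAt (fun z => a (-z)) (a' (-(starRingEnd ℂ) w) * -1) ((starRingEnd ℂ) w) :=
        (haa (-(starRingEnd ℂ) w)).comp _ (hasDerivAt_neg _)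
      have h4 := h3.conj_conj
      rw [Complex.conj_conj] at h4
      have h5 : (starRingEnd ℂ) ∘ (fun z => a (-z)) ∘ (starRingEnd ℂ) =
          fun w => (starRingEnd ℂ) (a (-(starRingEnd ℂ) w)) := rfl
      rw [h5] at h4
      refine h4.congr_deriv ?_
      rw [map_mul, map_neg, map_one]
      ring
    have h3 : HasDerivAt (fun w => (n.factorial / (2 * Real.pi * I)) *
        (a w - (-1) ^ n * (starRingEnd ℂ) (a (-(starRingEnd ℂ) w))))
        ((n.factorial / (2 * Real.pi * I)) *
          (a' w - (-1) ^ n * (-(starRingEnd ℂ) (a' (-(starRingEnd ℂ) w))))) w :=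
      ((haa w).sub (h2.const_mul ((-1) ^ n))).const_mul (n.factorial / (2 * Real.pi * I) : ℂ)
    rw [h3.deriv]
    ring
  -- the facts at the points of the segment
  have hP : ∀ w : ℂ, w.im = t → -(ρ - y0 - d) ≤ w.re → w.re ≤ M →
      a w ≠ 0 ∧ ‖a' w - L * a w‖ ≤ 1 / 2 * L * ‖a w‖ := by
    intro w h1 h2 h3
    obtain ⟨r, hr, hpc, -⟩ := H w h1 h2 h3
    have e1 : AA (gk F κ w) h r = a w := AA_eq hF κ w hh hr one_pos
    have e2 : AA (gk (deriv F) κ w) h r = a' w := AA_eq hdF κ w hh hr one_pos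
    have h4 := hpc.pos
    have h5 := hpc.der
    rw [e1] at h4
    rw [e1, e2] at h5
    exact ⟨norm_pos_iff.1 h4, h5⟩
  -- no zeros to the right
  have key : ∀ w : ℂ, w.im = t → 0 < w.re → w.re ≤ M → iteratedDeriv n F w ≠ 0 := by
    intro w hw hre hre2 h0
    have hlt : ‖a (-(starRingEnd ℂ) w)‖ < ‖a w‖ := by
      have e1 : ‖a (-(starRingEnd ℂ) w)‖ = ‖a (⟨-w.re, t⟩ : ℂ)‖ := by
        have : -(starRingEnd ℂ) w = (⟨-w.re, t⟩ : ℂ) := by
          apply Complex.ext <;> simp [hw]
        rw [this]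
      rw [e1]
      by_cases hbig : ρ - y0 - d ≤ w.re
      · obtain ⟨r, hr, hpc, h2⟩ := H w hw (by linarith) hre2
        obtain ⟨r', hr', h3⟩ := h2 hbig ⟨-w.re, t⟩ rfl rfl
        have e2 : AA (gk F κ w) h r = a w := AA_eq hF κ w hh hr one_pos
        have e3 : AA (gk F κ ⟨-w.re, t⟩) h r' = a ⟨-w.re, t⟩ := AA_eq hF κ _ hh hr' one_pos
        have h4 := AA_le_NN (gk F κ ⟨-w.re, t⟩) hh hr'
        rw [e3] at h4
        rw [e2] at h3
        have h5 := hpc.pos
        rw [e2] at h5
        have h6 : Real.exp (-(d * L)) < 1 := by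
          rw [Real.exp_lt_one_iff]
          nlinarith
        calc ‖a ⟨-w.re, t⟩‖ ≤ Real.exp (-(d * L)) * ‖a w‖ := h4.trans h3
          _ < 1 * ‖a w‖ := by gcongr
          _ = ‖a w‖ := one_mul _
      · push Not at hbig
        have hgr := growth (g := a) (z1 := w) (z2 := ⟨-w.re, t⟩) (L := L) (M := 1 / 2 * L)
          (fun z _ => (haa z).differentiableAt) ?_ ?_
        · have e2 : ((⟨-w.re, t⟩ : ℂ) - w) = ((-(2 * w.re) : ℝ) : ℂ) := by
            apply Complex.ext <;> simp [hw]
            ring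
          rw [e2, Complex.norm_real, Real.norm_eq_abs, abs_neg, abs_of_pos (by linarith)] at hgr
          simp only at hgr
          have h5 : 0 < ‖a w‖ := norm_pos_iff.2 (hP w hw (by linarith) hre2).1
          have h6 : Real.exp (L * (-w.re - w.re) + 1 / 2 * L * (2 * w.re)) < 1 := by
            rw [Real.exp_lt_one_iff]
            nlinarith [mul_pos hL hre]
          calc ‖a ⟨-w.re, t⟩‖ ≤ _ := hgr
            _ < ‖a w‖ * 1 := by gcongr
            _ = ‖a w‖ := mul_one _
        · intro z hz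
          rw [segment_eq_image'] at hz
          obtain ⟨τ, hτ, rfl⟩ := hz
          refine (hP _ ?_ ?_ ?_).1
          · simp [hw]
          · simp
            nlinarith [hτ.1, hτ.2]
          · simp
            nlinarith [hτ.1, hτ.2]
        · intro z hz
          rw [segment_eq_image'] at hz
          obtain ⟨τ, hτ, rfl⟩ := hz
          set z : ℂ := w + τ • ((⟨-w.re, t⟩ : ℂ) - w) with hz
          have h7 := hP z (by simp [hz, hw]) (by simp [hz]; nlinarith [hτ.1, hτ.2])
            (by simp [hz]; nlinarith [hτ.1, hτ.2])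
          have h8 : 0 < ‖a z‖ := norm_pos_iff.2 h7.1
          rw [logDeriv_apply, (haa z).deriv]
          have e3 : a' z / a z - L = (a' z - L * a z) / a z := by
            have := h7.1
            field_simp
          rw [e3, norm_div, div_le_iff₀ h8]
          exact h7.2
    rw [hdec] at h0
    have h1 : a w - (-1) ^ n * (starRingEnd ℂ) (a (-(starRingEnd ℂ) w)) = 0 := by
      rcases mul_eq_zero.1 h0 with h | h
      · exact absurd h (div_ne_zero hfact hpi)
      · exact h
    have h2 : a w = (-1) ^ n * (starRingEnd ℂ) (a (-(starRingEnd ℂ) w)) := by linear_combination h1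
    rw [h2, norm_mul, norm_pow, norm_neg, norm_one, one_pow, one_mul, RCLike.norm_conj] at hlt
    exact lt_irrefl _ hlt
  have hneg : ∀ w, iteratedDeriv n F (-(starRingEnd ℂ) w) = 0 ↔ iteratedDeriv n F w = 0 := by
    have h1 : ∀ w, iteratedDeriv n F w = 0 → iteratedDeriv n F (-(starRingEnd ℂ) w) = 0 := by
      intro w h0
      rw [hdec] at h0
      rw [hdec]
      have h1 := (mul_eq_zero.1 h0).resolve_left (div_ne_zero hfact hpi)
      have h2 : -(starRingEnd ℂ) (-(starRingEnd ℂ) w) = w := by simp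
      rw [h2]
      have h3 := congrArg (starRingEnd ℂ) h1
      simp only [map_sub, map_mul, map_pow, map_neg, map_one, map_zero, Complex.conj_conj] at h3
      have h4 : ((-1 : ℂ) ^ n) * ((-1 : ℂ) ^ n) = 1 := by
        rw [← mul_pow]; norm_num
      have h5 : a (-(starRingEnd ℂ) w) - (-1) ^ n * (starRingEnd ℂ) (a w) = 0 := by
        linear_combination (-(-1) ^ n) * h3 - a (-(starRingEnd ℂ) w) * h4
      rw [h5, mul_zero]
    intro w
    refine ⟨fun h0 => ?_, h1 w⟩
    have := h1 _ h0
    simpa using this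
  obtain ⟨hb1, hb2⟩ := abs_le.1 hwM
  have hre : w.re = 0 := by
    rcases lt_trichotomy w.re 0 with h1 | h1 | h1
    · exfalso
      refine key (-(starRingEnd ℂ) w) (by simp [hw]) ?_ ?_ ((hneg w).2 hz)
      · simp; linarith
      · simp; linarith
    · exact h1
    · exact absurd hz (key w hw h1 hb2)
  refine ⟨hre, fun h1 => ?_⟩
  rw [hdec] at hz
  rw [hdec'] at h1
  have hwc : -(starRingEnd ℂ) w = w := by
    apply Complex.ext <;> simp [hre]
  rw [hwc] at hz h1
  have hne := div_ne_zero hfact hpi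
  have h0' := (mul_eq_zero.1 hz).resolve_left hne
  have h1' := (mul_eq_zero.1 h1).resolve_left hne
  obtain ⟨hane, hder⟩ := hP w hw (by rw [hre]; linarith) (by rw [hre]; exact hM)
  have e1 : (-1) ^ n * (starRingEnd ℂ) (a w) = a w := by linear_combination -h0'
  have e2 : (-1) ^ n * (starRingEnd ℂ) (a' w) = -a' w := by linear_combination h1'
  set q : ℂ := a' w / a w with hq
  have hq' : a' w = q * a w := by rw [hq]; field_simp
  have e3 : (starRingEnd ℂ) q = -q := by
    have h2 : (-1) ^ n * ((starRingEnd ℂ) q * (starRingEnd ℂ) (a w)) = -(q * a w) := by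
      rw [← map_mul, ← hq']; exact e2
    have h3 : (starRingEnd ℂ) q * a w = -q * a w := by
      calc (starRingEnd ℂ) q * a w = (starRingEnd ℂ) q * ((-1) ^ n * (starRingEnd ℂ) (a w)) := by rw [e1]
        _ = (-1) ^ n * ((starRingEnd ℂ) q * (starRingEnd ℂ) (a w)) := by ring
        _ = -(q * a w) := h2
        _ = _ := by ring
    exact mul_right_cancel₀ hane h3
  have e4 : q.re = 0 := by
    have := congrArg re e3
    simp at this
    linarith
  have e5 : ‖q - L‖ ≤ 1 / 2 * L := by
    have h8 : 0 < ‖a w‖ := norm_pos_iff.2 hane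
    have e6 : q - L = (a' w - L * a w) / a w := by
      rw [hq]
      field_simp
    rw [e6, norm_div, div_le_iff₀ h8]
    exact hder
  have e7 := (Complex.abs_re_le_norm (q - L)).trans e5
  simp [e4] at e7
  rw [abs_of_pos hL] at e7
  linarith

end Pool.Agent.Helper68.PD
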