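import Pool.Agent.Helper85.DQ.PQ2

/-!
The saddle point analysis of the path integrals, for `Re w ≤ 1`.
-/

set_option autoImplicit false
set_option maxHeartbeats 4000000

open Complex Filter Topology Set MeasureTheory

namespace Pool.Agent.Helper68.PD

open Pool.Agent.Helper85.DQ

/-- the saddle point `w + ρ` lies in the regular region; `R0` normalises the crude bound -/
theorem PQg1 {y0 ρ1 ρ2 B R0 d : ℝ} (hy0 : 0 < y0) (hρ1 : 0 < ρ1) (h12 : ρ1 ≤ ρ2) (hhalf : 1 ≤ ρ2)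
    (hB : 0 ≤ B) (hd0 : 0 < d) (hd2 : d ≤ 1 / 4) (hR1 : y0 ≤ R0) (hR2 : R0 ≤ ρ2 + 1 / 2)
    (hR3 : R0 ≤ ρ2 + y0) (hyρ : y0 + d ≤ ρ2) :
    ∃ h > 0, ∃ ε > 0, ∃ L0 : ℝ, 1 ≤ L0 ∧ ∀ (F : ℂ → ℂ) (t L ρ : ℝ) (κ : ℕ),
      Differentiable ℂ F → L0 ≤ L → ρ1 ≤ ρ → ρ ≤ ρ2 → (κ : ℝ) = ρ * L →
      Hy F t L ε h y0 (ρ2 + 2) B R0 →
      ∀ w : ℂ, w.im = t → y0 + d ≤ w.re + ρ → w.re ≤ 1 →
        ∃ r > 0, PC F κ h L w r ∧
          (y0 + 7 * d ≤ w.re + ρ → ρ - y0 - d ≤ w.re → ∀ w' : ℂ, w'.im = t → w'.re = -w.re →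
            ∃ r' > 0, NN (gk F κ w') h r' ≤ Real.exp (-(d * L)) * ‖AA (gk F κ w) h r‖) := by
  have hρ2 : 0 < ρ2 := by linarith
  set K : ℝ := (B + 7 * ρ2 + 4) / ρ1 with hK
  have hK0 : 0 < K := by positivity
  have hKρ : K * ρ1 = B + 7 * ρ2 + 4 := by rw [hK]; field_simp
  set h : ℝ := ρ2 * Real.exp K with hh
  have hhρ : ρ2 ≤ h := by
    rw [hh]
    nlinarith [Real.add_one_le_exp K]
  have hh0 : 0 < h := by linarith
  obtain ⟨ε0, hε0, hvert⟩ := vert (ρ1 := ρ1) (ρ2 := ρ2) (d := d) (h := h) hρ1 h12 hd0 (by linarith)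
  set ε : ℝ := min (min ε0 (1 / 1000)) (min (d / (h + 6 * ρ2 + 3)) (1 / (4 * ρ2 + 4))) with hε
  have hεp : 0 < ε := by positivity
  have hε1 : ε ≤ ε0 := (min_le_left _ _).trans (min_le_left _ _)
  have hε2 : ε ≤ 1 / 1000 := (min_le_left _ _).trans (min_le_right _ _)
  have hε3 : ε ≤ d / (h + 6 * ρ2 + 3) := (min_le_right _ _).trans (min_le_left _ _)
  have hε4 : ε ≤ 1 / (4 * ρ2 + 4) := (min_le_right _ _).trans (min_le_right _ _)
  rw [le_div_iff₀ (by positivity)] at hε3 hε4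
  obtain ⟨Lv, hLv1, hLv⟩ := hvert ε hεp hε1
  have hev : ∀ᶠ L : ℝ in atTop, 200 * (ρ2 + 1) ≤ Real.exp L ∧ 100 * h ≤ Real.exp (d * L) := by
    refine (Real.tendsto_exp_atTop.eventually_ge_atTop _).and ?_
    exact (Real.tendsto_exp_atTop.comp (tendsto_id.const_mul_atTop hd0)).eventually_ge_atTop _
  obtain ⟨Le, hLe⟩ := eventually_atTop.1 hev
  clear_value ε
  clear hvert hev hε1 hε0
  refine ⟨h, hh0, ε, hεp, max Lv Le, hLv1.trans (le_max_left _ _), ?_⟩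
  intro F t L ρ κ hF hL h1 h2 hκ hy w hwt hw1 hw2
  have hLLv : Lv ≤ L := (le_max_left _ _).trans hL
  have hLLe : Le ≤ L := (le_max_right _ _).trans hL
  obtain ⟨hL200, hLh⟩ := hLe L hLLe
  have hLp : 0 < L := by linarith only [hLv1, hLLv]
  have hL1 : 1 ≤ L := by linarith only [hLv1, hLLv]
  have hρ : 0 < ρ := by linarith only [hρ1, h1]
  -- the vertical integral
  obtain ⟨r0, hr0, hr0ρ, hN, hV⟩ := hLv L ρ κ (fun z => F (w + z)) hLLv h1 h2 hκ (by fun_prop)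
    (fun z hz1 hz2 => by
      rw [ld_shift]
      rw [abs_lt] at hz1
      refine hy.reg (w + z) ?_ ?_ ?_
      · simp; linarith only [hz1.1, hw1]
      · simp; linarith only [hz1.2, hw2, h2, hd2]
      · simp only [add_im, hwt]
        have : t + z.im - t = z.im := by ring
        rw [this]
        linarith only [hz2, hd2])
  have hερ : 2 * ρ * ε ≤ d ∧ 2 * ρ * ε ≤ 1 := by
    have i1 : 2 * ρ * ε ≤ 2 * ρ2 * ε := by gcongr
    have i2 : 2 * ρ2 * ε ≤ ε * (h + 6 * ρ2 + 3) := by nlinarith only [hεp, hh0, hρ2, mul_pos hεp hρ2, mul_pos hεp hh0]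
    constructor
    · linarith only [i1, i2, hε3]
    · linarith only [i1, i2, hε3, hd2]
  have hr0le : r0 ≤ ρ2 + 1 := by
    have := (abs_le.1 hr0ρ).2
    linarith only [this, hερ.2, h2]
  have hr0l : ρ - d ≤ r0 := by
    have := (abs_le.1 hr0ρ).1
    linarith only [this, hερ.1]
  set V : ℂ := ∫ v in (-h)..h, gk F κ w (r0 + v * I) with hVdef
  have hN' : ∫ v in (-h)..h, ‖gk F κ w (r0 + v * I)‖ ≤ 5 * ‖V‖ := hN
  have hV' : ‖F (w + ρ)‖ / ρ ^ κ * Real.exp (-((5 * ρ2 + 1) * ε * L)) ≤ ‖V‖ := hV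
  clear hN hV
  have hwρ : y0 ≤ (w + ρ).re ∧ (w + ρ).re ≤ ρ2 + 2 ∧ |(w + ρ).im - t| ≤ h + 1 := by
    refine ⟨?_, ?_, ?_⟩
    · simp; linarith only [hw1, hd0]
    · simp; linarith only [hw2, h2]
    · simp [hwt]; linarith only [hh0]
  have hρ1t : y0 ≤ (R0 + t * I : ℂ).re ∧ (R0 + t * I : ℂ).re ≤ ρ2 + 2 ∧ |(R0 + t * I : ℂ).im - t| ≤ h + 1 := by
    refine ⟨?_, ?_, ?_⟩
    · simp; linarith only [hR1]
    · simp; linarith only [hR2]
    · simp; linarith only [hh0]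
  have hR : ‖F (R0 + t * I)‖ ≤ ‖F (w + ρ)‖ * Real.exp ((2 * ρ2 + 1) * L) := by
    refine (grow hF hy.reg hwρ hρ1t).trans ?_
    refine mul_le_mul_of_nonneg_left (Real.exp_le_exp.2 ?_) (norm_nonneg _)
    have e1 : (R0 + t * I - (w + ρ) : ℂ) = ((R0 - w.re - ρ : ℝ) : ℂ) := by
      apply Complex.ext <;> simp [hwt]
      ring
    have e2 : (R0 + t * I : ℂ).re - (w + ρ).re = R0 - w.re - ρ := by simp; ring
    rw [e1, e2, Complex.norm_real, Real.norm_eq_abs]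
    have e3 : |R0 - w.re - ρ| ≤ ρ2 + 1 := by
      rw [abs_le]
      constructor
      · linarith only [hR1, hy0, hw2, h2]
      · linarith only [hw1, hy0, hd0, hR2]
    have e4 : R0 - w.re - ρ ≤ ρ2 := by linarith only [hw1, hd0, hR3]
    have e5 : L * (R0 - w.re - ρ) ≤ L * ρ2 := by gcongr
    have e6 : ε * L * |R0 - w.re - ρ| ≤ 1 * L * (ρ2 + 1) := by gcongr; linarith only [hε2]
    linarith only [e5, e6]
  have hFw0 : F (w + ρ) ≠ 0 := (hy.reg _ hwρ.1 hwρ.2.1 hwρ.2.2).1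
  have hEs := E_arith (ρ1 := ρ1) (ρ2 := ρ2) (B := B) (L := L) (ρ := ρ) (h := h) (K := K) (ε := ε)
    (R := ‖F (R0 + t * I)‖) (Fw := ‖F (w + ρ)‖) (V := ‖V‖) (κ := κ) hρ1 h1 h2 hLp hκ hh hKρ hB
    (by linarith only [hε2]) hR hV' (norm_nonneg _) hL200
  have hVpos : 0 < ‖V‖ := by
    refine lt_of_lt_of_le ?_ hV'
    have := norm_pos_iff.2 hFw0
    positivity
  have hexpL : Real.exp (-L) ≤ 1 := by
    rw [Real.exp_le_one_iff]; linarith only [hLp]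
  have hE1 : 2 * (ρ2 + 1) * (Real.exp (B * L) * ‖F (R0 + t * I)‖ / h ^ κ) ≤ 1 / 100 * ‖V‖ := by
    refine hEs.trans ?_
    have : Real.exp (-L) * ‖V‖ ≤ 1 * ‖V‖ := by gcongr
    linarith only [this]
  have hwre : |w.re| ≤ ρ2 := by
    rw [abs_le]
    constructor
    · linarith only [hw1, hy0, hd0, h2]
    · linarith only [hw2, hhalf]
  have hH0 := hgen hF hh0 hy κ (w' := w) (r := r0) hwt hwre hr0 (by linarith only [hw2, hr0le]) hr0le
  obtain ⟨hPC, hAlow⟩ := PC_of hF (κ := κ) (w := w) (ε := ε) hh0 hL1 hεp hε2 hr0 hVdef hVpos hN'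
    (hH0.1.trans hE1) (hH0.2.trans hE1) (fun v hv => by
      have := hy.reg (w + (r0 + v * I)) (by simp; linarith only [hw1, hr0l]) (by simp; linarith only [hw2, hr0le]) (by
        simp only [add_im, ofReal_im, mul_im, ofReal_re, I_im, mul_one, I_re, mul_zero, add_zero, zero_add, hwt]
        rw [show t + v - t = v by ring, abs_le]
        constructor
        · linarith only [hv.1]
        · linarith only [hv.2])
      refine ⟨?_, this.2⟩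
      unfold gk
      rw [logDeriv_apply]
      have h0 := this.1
      field_simp)
  refine ⟨r0, hr0, hPC, ?_⟩
  -- the left side
  intro hwsum hwbig w' hw't hw're
  set r' : ℝ := y0 + d + w.re with hr'
  have hr'ρ : ρ ≤ r' := by linarith only [hwbig, hr']
  have hr'p : 0 < r' := by linarith only [hr'ρ, hρ]
  refine ⟨r', hr'p, ?_⟩
  have hH4 : HH (gk F κ w') h r' ≤ 1 / 100 * Real.exp (-L) * ‖V‖ :=
    (hgen hF hh0 hy κ hw't (by rw [hw're, abs_neg]; exact hwre) hr'p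
      (by rw [hw're]; linarith only [hr', hyρ])
      (by linarith only [hr', hyρ, hw2])).1.trans hEs
  have hc1 : w'.re + r' = y0 + d := by rw [hw're]; linarith only [hr']
  have hlv := left_vert hF (κ := κ) hh0 hLp hεp hρ hy hr'ρ hw't hc1 (by linarith only [hd0])
    (by linarith only [hyρ])
  have hyd : y0 ≤ (((y0 + d : ℝ) : ℂ) + t * I : ℂ).re ∧ (((y0 + d : ℝ) : ℂ) + t * I : ℂ).re ≤ ρ2 + 2 ∧
      |(((y0 + d : ℝ) : ℂ) + t * I : ℂ).im - t| ≤ h + 1 := by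
    refine ⟨?_, ?_, ?_⟩
    · simp; linarith only [hd0]
    · simp; linarith only [hyρ]
    · simp; linarith only [hh0]
  have hgd : ‖F (((y0 + d : ℝ) : ℂ) + t * I)‖ ≤ ‖F (w + ρ)‖ * Real.exp (-(6 * d * L) + ε * L * (ρ2 + 1)) := by
    refine (grow hF hy.reg hwρ hyd).trans ?_
    refine mul_le_mul_of_nonneg_left (Real.exp_le_exp.2 ?_) (norm_nonneg _)
    have e1 : (((y0 + d : ℝ) : ℂ) + t * I - (w + ρ) : ℂ) = ((y0 + d - w.re - ρ : ℝ) : ℂ) := by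
      apply Complex.ext <;> simp [hwt]
      ring
    have e2 : (((y0 + d : ℝ) : ℂ) + t * I : ℂ).re - (w + ρ).re = y0 + d - w.re - ρ := by simp; ring
    rw [e1, e2, Complex.norm_real, Real.norm_eq_abs]
    have e4 : y0 + d - w.re - ρ ≤ -(6 * d) := by linarith only [hwsum]
    have e3 : |y0 + d - w.re - ρ| ≤ ρ2 + 1 := by
      rw [abs_le]
      constructor
      · linarith only [hw2, h2, hy0, hd0]
      · linarith only [e4, hd0, hρ2]
    have e5 : L * (y0 + d - w.re - ρ) ≤ L * (-(6 * d)) := by gcongr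
    have e6 : ε * L * |y0 + d - w.re - ρ| ≤ ε * L * (ρ2 + 1) := by gcongr
    linarith only [e5, e6]
  have hmain := left_arith (h := h) (κ := κ) hh0 hLp hεp hρ hρ2 hd0 hVpos.le hgd hV' hε3 hLh
  have hHH : HH (gk F κ w') h r' ≤ 1 / 2 * Real.exp (-(d * L)) * (99 / 100 * ‖V‖) := by
    refine hH4.trans ?_
    have h3 : Real.exp (-L) * ‖V‖ ≤ Real.exp (-(d * L)) * ‖V‖ := by
      gcongr
      nlinarith only [hd2, hLp]
    have h4 : 0 < Real.exp (-(d * L)) * ‖V‖ := by positivity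
    linarith only [h3, h4]
  rw [NN_eq]
  have hfin : Real.exp (-(d * L)) * (99 / 100 * ‖V‖) ≤
      Real.exp (-(d * L)) * ‖AA (gk F κ w) h r0‖ := by gcongr
  linarith only [hlv, hmain, hHH, hfin]

theorem PQ1 {y0 ρ1 ρ2 B : ℝ} (hy0 : 0 < y0) (h01 : y0 < ρ1) (h12 : ρ1 ≤ ρ2) (hhalf : 1 ≤ ρ2) (hB : 0 ≤ B) :
    ∃ d > 0, 4 * d ≤ ρ1 - y0 ∧ ∃ h > 0, ∃ ε > 0, ∃ L0 : ℝ, 1 ≤ L0 ∧ ∀ (F : ℂ → ℂ) (t L ρ : ℝ) (κ : ℕ),
      Differentiable ℂ F → L0 ≤ L → ρ1 ≤ ρ → ρ ≤ ρ2 → (κ : ℝ) = ρ * L →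
      Hy F t L ε h y0 (ρ2 + 2) B ρ1 →
      ∀ w : ℂ, w.im = t → -(ρ - y0 - d) ≤ w.re → w.re ≤ 1 →
        ∃ r > 0, PC F κ h L w r ∧
          (ρ - y0 - d ≤ w.re → ∀ w' : ℂ, w'.im = t → w'.re = -w.re →
            ∃ r' > 0, NN (gk F κ w') h r' ≤ Real.exp (-(d * L)) * ‖AA (gk F κ w) h r‖) := by
  set d : ℝ := min ((ρ1 - y0) / 4) (1 / 4) with hd
  have hd0 : 0 < d := lt_min (by linarith) (by norm_num)
  have hd1 : d ≤ (ρ1 - y0) / 4 := min_le_left _ _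
  have hd2 : d ≤ 1 / 4 := min_le_right _ _
  clear_value d
  obtain ⟨h, hh, ε, hε, L0, hL0, P⟩ := PQg1 (R0 := ρ1) (d := d) hy0 (by linarith) h12 hhalf hB hd0 hd2 h01.le
    (by linarith) (by linarith) (by linarith)
  refine ⟨d, hd0, by linarith, h, hh, ε, hε, L0, hL0, ?_⟩
  intro F t L ρ κ hF hL h1 h2 hκ hy w hwt hw1 hw2
  obtain ⟨r, hr, hPC, hm⟩ := P F t L ρ κ hF hL h1 h2 hκ hy w hwt (by linarith) hw2
  exact ⟨r, hr, hPC, fun h3 => hm (by linarith) h3⟩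

end Pool.Agent.Helper68.PD
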