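import Pool.Agent.Helper68.PD.Dir1
import Pool.Agent.Helper68.PD.PQ1
import Pool.Agent.Helper75.JE.S1E

/-!
Zeros of the derivatives of the rescaled function `Ph τ`, from the regularity hypotheses.
-/

set_option autoImplicit false
set_option maxHeartbeats 1000000

open Complex Filter Topology Set MeasureTheory

namespace Pool.Agent.Helper68.PD

open Pool.Agent.Helper85.DQ
open Pool.Agent.Helper75.JE (Ph Ph_diff Ph_conj iter_aff)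

/-- the regularity of `ω ↦ Ph τ (i ω)` -/
def HyPh (y0 : ℝ) : Prop := ∀ δ ε h Y R0 : ℝ, 0 < δ → 0 < ε → 0 < h → y0 + δ ≤ R0 → R0 ≤ Y →
  ∃ τ0 : ℝ, ∀ τ : ℝ, τ0 ≤ τ →
    Hy (fun ω => Ph τ (I * ω)) 0 (1 / 2 * Real.log τ) ε h (y0 + δ) Y (Y + 20) R0

lemma PhI_sym (τ : ℝ) (z : ℂ) :
    Ph τ (I * (-(starRingEnd ℂ) z)) = (starRingEnd ℂ) (Ph τ (I * z)) := by
  rw [← Ph_conj]
  congr 1
  rw [map_mul, conj_I]
  ring

lemma PhI_diff (τ : ℝ) : Differentiable ℂ (fun ω => Ph τ (I * ω)) :=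
  (Ph_diff τ).comp (by fun_prop)

lemma PhI_iter (τ : ℝ) (m : ℕ) (ω : ℂ) :
    iteratedDeriv m (fun ω => Ph τ (I * ω)) ω = I ^ m * iteratedDeriv m (Ph τ) (I * ω) := by
  have h := iter_aff (Ph_diff τ) 0 I m
  simp only [zero_add] at h
  rw [h]

theorem ph_dir_of {y0 ρ1 ρ2 : ℝ} (hy0 : 0 < y0) (hHy : HyPh y0) (hρ1 : y0 < ρ1) (h12 : ρ1 ≤ ρ2) :
    ∃ τ0 : ℝ, ∀ τ : ℝ, τ0 ≤ τ → ∀ m : ℕ, ρ1 * (Real.log τ / 2) ≤ m → (m : ℝ) ≤ ρ2 * (Real.log τ / 2) →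
      ∀ y : ℝ, |y| ≤ 1 → iteratedDeriv m (Ph τ) ⟨0, y⟩ = 0 →
        y = 0 ∧ iteratedDeriv (m + 1) (Ph τ) ⟨0, y⟩ ≠ 0 := by
  obtain ⟨δ, hδ⟩ : ∃ δ : ℝ, δ = (ρ1 - y0) / 2 := ⟨_, rfl⟩
  have hδ0 : 0 < δ := by rw [hδ]; linarith
  obtain ⟨d, hd, h4d, h, hh, ε, hε, L0, hL0, P⟩ :=
    PQ1 (y0 := y0 + δ) (ρ1 := ρ1) (ρ2 := ρ2 + 1) (B := ρ2 + 1 + 2 + 20) (by linarith) (by linarith)
      (by linarith) (by linarith) (by linarith)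
  obtain ⟨τ1, hτ1⟩ := hHy δ ε h (ρ2 + 1 + 2) ρ1 hδ0 hε hh (by linarith) (by linarith)
  refine ⟨max τ1 (Real.exp (2 * L0)), fun τ hτ m hm1 hm2 y hy hz => ?_⟩
  have ha : τ1 ≤ τ := (le_max_left _ _).trans hτ
  have hb : Real.exp (2 * L0) ≤ τ := (le_max_right _ _).trans hτ
  have hlog : 2 * L0 ≤ Real.log τ := by
    rw [← Real.log_exp (2 * L0)]
    exact Real.log_le_log (Real.exp_pos _) hb
  have hyy := hτ1 τ ha
  obtain ⟨L, hL⟩ : ∃ L : ℝ, L = 1 / 2 * Real.log τ := ⟨_, rfl⟩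
  have hL' : Real.log τ / 2 = L := by rw [hL]; ring
  rw [← hL] at hyy
  rw [hL'] at hm1 hm2
  have hLL0 : L0 ≤ L := by rw [hL]; linarith
  have hL1 : 1 ≤ L := hL0.trans hLL0
  have hLpos : 0 < L := by linarith
  obtain ⟨ρ, hρ⟩ : ∃ ρ : ℝ, ρ = ((m + 1 : ℕ) : ℝ) / L := ⟨_, rfl⟩
  have hκ : ((m + 1 : ℕ) : ℝ) = ρ * L := by rw [hρ]; field_simp
  have g1 : ρ1 ≤ ρ := by
    rw [hρ, le_div_iff₀ hLpos]
    push_cast
    linarith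
  have g2 : ρ ≤ ρ2 + 1 := by
    rw [hρ, div_le_iff₀ hLpos]
    push_cast
    linarith
  have hP := P (fun ω => Ph τ (I * ω)) 0 L ρ (m + 1) (PhI_diff τ) hLL0 g1 g2 hκ hyy
  have hu : 0 < ρ - (y0 + δ) - d := by linarith
  have hIy : I * (y : ℂ) = ⟨0, y⟩ := by
    apply Complex.ext <;> simp
  have hz' : iteratedDeriv m (fun ω => Ph τ (I * ω)) (y : ℂ) = 0 := by
    rw [PhI_iter, hIy, hz, mul_zero]
  have := dir_sym (PhI_diff τ) (PhI_sym τ) hh hLpos hd hu (zero_le_one) hP (w := (y : ℂ)) (by simp)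
    (by simpa using hy) hz'
  obtain ⟨k1, k2⟩ := this
  refine ⟨by simpa using k1, fun h0 => k2 ?_⟩
  rw [PhI_iter, hIy, h0, mul_zero]

end Pool.Agent.Helper68.PD
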